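import Pool.Agent.Helper50.KR.Defs

/-!
# Bordered symmetric matrices: the number of borders of each rank
-/

set_option autoImplicit false

namespace Pool.Agent.Helper78.KR
open Matrix Module
open Pool.Agent.Helper50.KR

variable {k : Type} [Field k] {ι : Type}

/-- the bordered matrix -/
def bord (A : Matrix ι ι k) (b : ι → k) (d : k) : Matrix (Option ι) (Option ι) k
  | none, none => d
  | none, some j => b j
  | some i, none => b i
  | some i, some j => A i j

/-- the augmented matrix -/
def aug (A : Matrix ι ι k) (b : ι → k) : Matrix ι (Option ι) k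
  | i, none => b i
  | i, some j => A i j

/-- the column space -/
def cols (A : Matrix ι ι k) : Submodule k (ι → k) := Submodule.span k (Set.range A.col)

theorem range_option {α β : Type} (f : Option α → β) :
    Set.range f = insert (f none) (Set.range fun a => f (some a)) := by
  ext x
  constructor
  · rintro ⟨a | a, rfl⟩
    · exact Set.mem_insert _ _
    · exact Set.mem_insert_of_mem _ ⟨a, rfl⟩
  · rintro (rfl | ⟨a, rfl⟩)
    · exact ⟨none, rfl⟩
    · exact ⟨some a, rfl⟩

variable [Fintype ι]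

theorem rank_cols (A : Matrix ι ι k) : A.rank = finrank k (cols A) := A.rank_eq_finrank_span_cols

theorem mem_cols {A : Matrix ι ι k} {b : ι → k} : b ∈ cols A ↔ ∃ v, A *ᵥ v = b := by
  unfold cols
  rw [← Matrix.range_mulVecLin]
  simp [LinearMap.mem_range]

theorem span_aug (A : Matrix ι ι k) (b : ι → k) :
    Submodule.span k (Set.range (aug A b).col) = cols A ⊔ Submodule.span k {b} := by
  rw [range_option, Submodule.span_insert, sup_comm]
  rfl

theorem rank_aug_mem {A : Matrix ι ι k} {b : ι → k} (h : b ∈ cols A) : (aug A b).rank = A.rank := by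
  have : cols A ⊔ Submodule.span k {b} = cols A :=
    sup_eq_left.2 ((Submodule.span_singleton_le_iff_mem _ _).2 h)
  rw [Matrix.rank_eq_finrank_span_cols, span_aug, this, rank_cols]

theorem rank_aug_not_mem {A : Matrix ι ι k} {b : ι → k} (h : b ∉ cols A) :
    (aug A b).rank = A.rank + 1 := by
  rw [Matrix.rank_eq_finrank_span_cols, span_aug, rank_cols, Submodule.finrank_sup_span_singleton h]

theorem span_bord (A : Matrix ι ι k) (b : ι → k) (d : k) :
    Submodule.span k (Set.range (bord A b d).row) =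
      Submodule.span k (Set.range (aug A b).row) ⊔ Submodule.span k {bord A b d none} := by
  have h1 : (fun a => (bord A b d).row (some a)) = (aug A b).row := by
    funext a j
    cases j <;> rfl
  rw [range_option, Submodule.span_insert, sup_comm, h1]
  rfl

theorem mem_rows {A : Matrix ι ι k} (hA : A.IsSymm) {b : ι → k} {d : k} :
    bord A b d none ∈ Submodule.span k (Set.range (aug A b).row) ↔ ∃ w, A *ᵥ w = b ∧ w ⬝ᵥ b = d := by
  rw [Submodule.mem_span_range_iff_exists_fun]
  constructor
  · rintro ⟨w, hw⟩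
    refine ⟨w, ?_, ?_⟩
    · funext j
      have := congrFun hw (some j)
      rw [Finset.sum_apply] at this
      rw [Matrix.mulVec, dotProduct]
      rw [show b j = bord A b d none (some j) from rfl, ← this]
      refine Finset.sum_congr rfl fun i _ => ?_
      rw [Pi.smul_apply, smul_eq_mul, mul_comm]
      show w i * A j i = w i * A i j
      rw [hA.apply]
    · have := congrFun hw none
      rw [Finset.sum_apply] at this
      rw [dotProduct, show d = bord A b d none none from rfl, ← this]
      rfl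
  · rintro ⟨w, h1, h2⟩
    refine ⟨w, ?_⟩
    funext j
    rw [Finset.sum_apply]
    cases j with
    | none =>
      rw [show bord A b d none none = d from rfl, ← h2]
      rfl
    | some j =>
      rw [show bord A b d none (some j) = b j from rfl, ← h1, Matrix.mulVec, dotProduct]
      refine Finset.sum_congr rfl fun i _ => ?_
      rw [Pi.smul_apply, smul_eq_mul, mul_comm]
      show A i j * w i = A j i * w i
      rw [hA.apply]

theorem dot_unique {A : Matrix ι ι k} (hA : A.IsSymm) {b v w : ι → k} (hv : A *ᵥ v = b)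
    (hw : A *ᵥ w = b) : w ⬝ᵥ b = v ⬝ᵥ b := by
  calc w ⬝ᵥ b = w ⬝ᵥ (A *ᵥ v) := by rw [hv]
    _ = (w ᵥ* A) ⬝ᵥ v := Matrix.dotProduct_mulVec _ _ _
    _ = (A *ᵥ w) ⬝ᵥ v := by rw [← Matrix.mulVec_transpose, hA.eq]
    _ = v ⬝ᵥ b := by rw [hw, dotProduct_comm]

theorem rank_bord_mem_eq {A : Matrix ι ι k} (hA : A.IsSymm) {b v : ι → k} (hv : A *ᵥ v = b) :
    (bord A b (v ⬝ᵥ b)).rank = A.rank := by
  have hb : b ∈ cols A := mem_cols.2 ⟨v, hv⟩
  have hm : bord A b (v ⬝ᵥ b) none ∈ Submodule.span k (Set.range (aug A b).row) :=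
    (mem_rows hA).2 ⟨v, hv, rfl⟩
  rw [Matrix.rank_eq_finrank_span_row, span_bord,
    sup_eq_left.2 ((Submodule.span_singleton_le_iff_mem _ _).2 hm), ← Matrix.rank_eq_finrank_span_row,
    rank_aug_mem hb]

theorem rank_bord_mem_ne {A : Matrix ι ι k} (hA : A.IsSymm) {b v : ι → k} (hv : A *ᵥ v = b) {d : k}
    (hd : d ≠ v ⬝ᵥ b) : (bord A b d).rank = A.rank + 1 := by
  have hb : b ∈ cols A := mem_cols.2 ⟨v, hv⟩
  have hm : bord A b d none ∉ Submodule.span k (Set.range (aug A b).row) := by
    rw [mem_rows hA]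
    rintro ⟨w, hw, h⟩
    exact hd (h.symm.trans (dot_unique hA hv hw))
  rw [Matrix.rank_eq_finrank_span_row, span_bord, Submodule.finrank_sup_span_singleton hm,
    ← Matrix.rank_eq_finrank_span_row, rank_aug_mem hb]

theorem rank_bord_not_mem {A : Matrix ι ι k} (hA : A.IsSymm) {b : ι → k} (hb : b ∉ cols A) (d : k) :
    (bord A b d).rank = A.rank + 2 := by
  have hm : bord A b d none ∉ Submodule.span k (Set.range (aug A b).row) := by
    rw [mem_rows hA]
    rintro ⟨w, hw, -⟩
    exact hb (mem_cols.2 ⟨w, hw⟩)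
  rw [Matrix.rank_eq_finrank_span_row, span_bord, Submodule.finrank_sup_span_singleton hm,
    ← Matrix.rank_eq_finrank_span_row, rank_aug_not_mem hb]

open Classical in
/-- the value of `d` which keeps the rank -/
noncomputable def phi (A : Matrix ι ι k) (b : ι → k) : k :=
  if h : ∃ v, A *ᵥ v = b then h.choose ⬝ᵥ b else 0

theorem rank_bord {A : Matrix ι ι k} (hA : A.IsSymm) (b : ι → k) (d : k) [Decidable (b ∈ cols A)]
    [Decidable (d = phi A b)] :
    (bord A b d).rank = A.rank + if b ∈ cols A then (if d = phi A b then 0 else 1) else 2 := by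
  by_cases hb : b ∈ cols A
  · rw [if_pos hb]
    have h : ∃ v, A *ᵥ v = b := mem_cols.1 hb
    have hphi : phi A b = h.choose ⬝ᵥ b := by
      unfold phi
      rw [dif_pos h]
    by_cases hd : d = phi A b
    · rw [if_pos hd, hd, hphi, rank_bord_mem_eq hA h.choose_spec, add_zero]
    · rw [if_neg hd]
      exact rank_bord_mem_ne hA h.choose_spec (by rw [← hphi]; exact hd)
  · rw [if_neg hb, rank_bord_not_mem hA hb]

/-! ### Counting -/

variable [Fintype k]

theorem card_cols (A : Matrix ι ι k) : Nat.card (cols A) = Fintype.card k ^ A.rank := by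
  rw [Module.natCard_eq_pow_finrank (K := k), ← rank_cols, Nat.card_eq_fintype_card]

theorem card1 (A : Matrix ι ι k) :
    Nat.card {p : (ι → k) × k // p.1 ∈ cols A ∧ p.2 = phi A p.1} = Fintype.card k ^ A.rank := by
  rw [← card_cols A]
  refine Nat.card_congr
    { toFun := fun p => ⟨p.1.1, p.2.1⟩
      invFun := fun b => ⟨(b.1, phi A b.1), b.2, rfl⟩
      left_inv := ?_
      right_inv := fun b => rfl }
  rintro ⟨⟨b, d⟩, h1, h2⟩
  simp only at h2
  subst h2
  rfl

theorem card2 (A : Matrix ι ι k) :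
    Nat.card {p : (ι → k) × k // p.1 ∈ cols A ∧ p.2 ≠ phi A p.1}
      = Fintype.card k ^ A.rank * (Fintype.card k - 1) := by
  classical
  have e : {p : (ι → k) × k // p.1 ∈ cols A ∧ p.2 ≠ phi A p.1} ≃ cols A × {x : k // x ≠ 0} :=
    { toFun := fun p => (⟨p.1.1, p.2.1⟩, ⟨p.1.2 - phi A p.1.1, sub_ne_zero.2 p.2.2⟩)
      invFun := fun x => ⟨(x.1.1, x.2.1 + phi A x.1.1), x.1.2, by
        intro h
        exact x.2.2 (add_eq_right.1 h)⟩
      left_inv := by
        rintro ⟨⟨b, d⟩, h1, h2⟩
        simp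
      right_inv := by
        rintro ⟨⟨b, hb⟩, ⟨x, hx⟩⟩
        simp }
  rw [Nat.card_congr e, Nat.card_prod, card_cols]
  congr 1
  rw [Nat.card_eq_fintype_card, Fintype.card_subtype_compl, Fintype.card_subtype_eq]

theorem card3 (A : Matrix ι ι k) :
    Nat.card {p : (ι → k) × k // p.1 ∉ cols A}
      = (Fintype.card k ^ Fintype.card ι - Fintype.card k ^ A.rank) * Fintype.card k := by
  classical
  have e : {p : (ι → k) × k // p.1 ∉ cols A} ≃ {b : ι → k // b ∉ cols A} × k :=
    { toFun := fun p => (⟨p.1.1, p.2⟩, p.1.2)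
      invFun := fun x => ⟨(x.1.1, x.2), x.1.2⟩
      left_inv := fun p => rfl
      right_inv := fun p => rfl }
  rw [Nat.card_congr e, Nat.card_prod, Nat.card_eq_fintype_card (α := k)]
  congr 1
  rw [Nat.card_eq_fintype_card, Fintype.card_subtype_compl]
  have h1 : Fintype.card {b : ι → k // b ∈ cols A} = Fintype.card k ^ A.rank := by
    rw [← card_cols A, Nat.card_eq_fintype_card]
  rw [h1, Fintype.card_fun]

/-- the number of borders of rank `r + 2` -/
theorem card_border {A : Matrix ι ι k} (hA : A.IsSymm) (r : ℕ) :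
    Nat.card {p : (ι → k) × k // (bord A p.1 p.2).rank = r + 2} =
      if A.rank = r + 2 then Fintype.card k ^ (r + 2) else
      if A.rank = r + 1 then Fintype.card k ^ (r + 1) * (Fintype.card k - 1) else
      if A.rank = r then (Fintype.card k ^ Fintype.card ι - Fintype.card k ^ r) * Fintype.card k
      else 0 := by
  classical
  by_cases h2 : A.rank = r + 2
  · rw [if_pos h2, ← h2, ← card1 A]
    refine Nat.card_congr (Equiv.subtypeEquivRight fun p => ?_)
    rw [rank_bord hA]
    split_ifs <;> simp_all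
  rw [if_neg h2]
  by_cases h1 : A.rank = r + 1
  · rw [if_pos h1, ← h1, ← card2 A, show r + 2 = A.rank + 1 by omega]
    refine Nat.card_congr (Equiv.subtypeEquivRight fun p => ?_)
    rw [rank_bord hA]
    split_ifs <;> simp_all
  rw [if_neg h1]
  by_cases h0 : A.rank = r
  · rw [if_pos h0, ← h0, ← card3 A]
    refine Nat.card_congr (Equiv.subtypeEquivRight fun p => ?_)
    rw [rank_bord hA]
    split_ifs <;> simp_all
  rw [if_neg h0]
  rw [Nat.card_eq_zero]
  left
  refine ⟨fun p => ?_⟩
  have := p.2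
  rw [rank_bord hA] at this
  split_ifs at this <;> omega

/-- symmetric matrices on `Option ι` as bordered matrices -/
def toM (Z : Set (ι × ι)) (ρ : ℕ) :
    {M : Matrix (Option ι) (Option ι) k // M.IsSymm ∧ (∀ p ∈ Prod.map some some '' Z, M p.1 p.2 = 0) ∧
      (∀ p ∈ (∅ : Set (Option ι × Option ι)), M p.1 p.2 ≠ 0) ∧ M.rank = ρ} ≃
    Σ A : {A : Matrix ι ι k // A.IsSymm ∧ ∀ p ∈ Z, A p.1 p.2 = 0},
      {p : (ι → k) × k // (bord A.1 p.1 p.2).rank = ρ} where
  toFun M := ⟨⟨fun i j => M.1 (some i) (some j), by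
      ext i j
      exact M.2.1.apply (some i) (some j), fun p hp => M.2.2.1 (some p.1, some p.2) ⟨p, hp, rfl⟩⟩,
    ⟨(fun i => M.1 (some i) none, M.1 none none), by
      have : bord (fun i j => M.1 (some i) (some j)) (fun i => M.1 (some i) none) (M.1 none none)
          = M.1 := by
        funext i j
        rcases i with _ | i <;> rcases j with _ | j
        · rfl
        · exact M.2.1.apply none (some j)
        · rfl
        · rfl
      show (bord (fun i j => M.1 (some i) (some j)) (fun i => M.1 (some i) none)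
        (M.1 none none)).rank = ρ
      rw [this]
      exact M.2.2.2.2⟩⟩
  invFun x := ⟨bord x.1.1 x.2.1.1 x.2.1.2, by
      ext i j
      rcases i with _ | i <;> rcases j with _ | j
      · rfl
      · rfl
      · rfl
      · exact x.1.2.1.apply i j, by
      rintro _ ⟨p, hp, rfl⟩
      exact x.1.2.2 p hp, by simp, x.2.2⟩
  left_inv M := by
    apply Subtype.ext
    funext i j
    rcases i with _ | i <;> rcases j with _ | j
    · rfl
    · exact M.2.1.apply none (some j)
    · rfl
    · rfl
  right_inv x := rfl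

theorem scount_eq (Z : Set (ι × ι)) (s : ℕ)
    [Fintype {A : Matrix ι ι k // A.IsSymm ∧ ∀ p ∈ Z, A p.1 p.2 = 0}] :
    scount k ι Z ∅ s =
      ∑ A : {A : Matrix ι ι k // A.IsSymm ∧ ∀ p ∈ Z, A p.1 p.2 = 0}, if A.1.rank = s then 1 else 0 := by
  classical
  rw [Finset.sum_boole, Nat.cast_id]
  unfold scount
  have e : {M : Matrix ι ι k // M.IsSymm ∧ (∀ p ∈ Z, M p.1 p.2 = 0) ∧
      (∀ p ∈ (∅ : Set (ι × ι)), M p.1 p.2 ≠ 0) ∧ M.rank = s} ≃
      {A : {A : Matrix ι ι k // A.IsSymm ∧ ∀ p ∈ Z, A p.1 p.2 = 0} // A.1.rank = s} :=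
    { toFun := fun M => ⟨⟨M.1, M.2.1, M.2.2.1⟩, M.2.2.2.2⟩
      invFun := fun A => ⟨A.1.1, A.1.2.1, A.1.2.2, by simp, A.2⟩
      left_inv := fun M => rfl
      right_inv := fun A => rfl }
  rw [Nat.card_congr e, Nat.card_eq_fintype_card, Fintype.card_subtype]

end Pool.Agent.Helper78.KR

namespace Pool.Agent.Helper50.KR
open Pool.Agent.Helper78.KR

/-- M1 -/
theorem scount_ext {k : Type} [Field k] [Fintype k] {ι : Type} [Fintype ι] (Z : Set (ι × ι)) (r : ℕ) :
    (scount k (Option ι) (Prod.map some some '' Z) ∅ (r + 2) : ℤ) =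
      (Fintype.card k : ℤ) ^ (r + 2) * scount k ι Z ∅ (r + 2) +
      ((Fintype.card k : ℤ) - 1) * (Fintype.card k : ℤ) ^ (r + 1) * scount k ι Z ∅ (r + 1) +
      (Fintype.card k : ℤ) * ((Fintype.card k : ℤ) ^ (Fintype.card ι) - (Fintype.card k : ℤ) ^ r) *
        scount k ι Z ∅ r := by
  classical
  have h : scount k (Option ι) (Prod.map some some '' Z) ∅ (r + 2) =
      ∑ A : {A : Matrix ι ι k // A.IsSymm ∧ ∀ p ∈ Z, A p.1 p.2 = 0},
        Nat.card {p : (ι → k) × k // (bord A.1 p.1 p.2).rank = r + 2} := by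
    unfold scount
    rw [Nat.card_congr (toM Z (r + 2)), Nat.card_sigma]
  rw [h, scount_eq Z (r + 2), scount_eq Z (r + 1), scount_eq Z r]
  push_cast
  rw [Finset.mul_sum, Finset.mul_sum, Finset.mul_sum, ← Finset.sum_add_distrib,
    ← Finset.sum_add_distrib]
  refine Finset.sum_congr rfl fun A _ => ?_
  rw [card_border A.2.1]
  have hq : 1 ≤ Fintype.card k := Fintype.card_pos
  by_cases h2 : A.1.rank = r + 2
  · simp [h2]
  by_cases h1 : A.1.rank = r + 1
  · simp only [h1]
    simp
    push_cast [Nat.cast_sub hq]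
    ring
  by_cases h0 : A.1.rank = r
  · have hN : Fintype.card k ^ r ≤ Fintype.card k ^ Fintype.card ι := by
      apply Nat.pow_le_pow_right hq
      rw [← h0]
      exact A.1.rank_le_card_height
    simp only [h0]
    simp
    push_cast [Nat.cast_sub hN]
    ring
  · simp [h2, h1, h0]

end Pool.Agent.Helper50.KR
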